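import Pool.Agent.Run7.h500.RD.Stm
set_option autoImplicit false
open MeasureTheory Filter Topology Set

namespace Pool.Agent.Run7.h62.RD
open Pool.Agent.Run7.h500.RD

theorem t_HOL : S_HOL := by
  intro hB f m k C h c hc w0 hw0
  have hη : 0 < w0.im := hw0
  obtain ⟨A, hA, hAB⟩ := hB f m k C h c hc
  obtain ⟨hint, -⟩ := hAB w0 hη
  have hk := h.hk
  have hk0 : k ≠ 0 := by omega
  -- lower bounds
  have hL0 : ∀ z : ℝ × ℝ, 0 < z.2 → w0.im * z.2 ≤ ‖w0 * (z.2 : ℂ) - (z.1 : ℂ) + c‖ := by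
    intro z hz
    have h1 := Complex.abs_im_le_norm (w0 * (z.2 : ℂ) - (z.1 : ℂ) + c)
    have h2 : (w0 * (z.2 : ℂ) - (z.1 : ℂ) + c).im = w0.im * z.2 + c.im := by simp
    rw [h2] at h1
    have h3 : 0 ≤ w0.im * z.2 := by positivity
    have h4 := le_abs_self (w0.im * z.2 + c.im)
    linarith
  have hLp : ∀ z : ℝ × ℝ, 0 < z.2 → 0 < ‖w0 * (z.2 : ℂ) - (z.1 : ℂ) + c‖ := by
    intro z hz
    have : 0 < w0.im * z.2 := by positivity
    exact this.trans_le (hL0 z hz)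
  have hLw : ∀ z : ℝ × ℝ, 0 < z.2 → ∀ w ∈ Metric.ball w0 (w0.im / 2),
      ‖w0 * (z.2 : ℂ) - (z.1 : ℂ) + c‖ / 2 ≤ ‖w * (z.2 : ℂ) - (z.1 : ℂ) + c‖ := by
    intro z hz w hw
    have h1 : w0 * (z.2 : ℂ) - (z.1 : ℂ) + c
        = (w * (z.2 : ℂ) - (z.1 : ℂ) + c) + (w0 - w) * (z.2 : ℂ) := by ring
    have h2 : ‖w0 * (z.2 : ℂ) - (z.1 : ℂ) + c‖
        ≤ ‖w * (z.2 : ℂ) - (z.1 : ℂ) + c‖ + ‖w0 - w‖ * z.2 := by
      calc ‖w0 * (z.2 : ℂ) - (z.1 : ℂ) + c‖
          = ‖(w * (z.2 : ℂ) - (z.1 : ℂ) + c) + (w0 - w) * (z.2 : ℂ)‖ := by rw [h1]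
        _ ≤ ‖w * (z.2 : ℂ) - (z.1 : ℂ) + c‖ + ‖(w0 - w) * (z.2 : ℂ)‖ := norm_add_le _ _
        _ = ‖w * (z.2 : ℂ) - (z.1 : ℂ) + c‖ + ‖w0 - w‖ * z.2 := by
            rw [norm_mul, Complex.norm_real, Real.norm_of_nonneg hz.le]
    have h3 : ‖w0 - w‖ < w0.im / 2 := by
      rw [← dist_eq_norm, dist_comm]; exact Metric.mem_ball.1 hw
    have h4 : ‖w0 - w‖ * z.2 ≤ w0.im / 2 * z.2 := by
      exact mul_le_mul_of_nonneg_right h3.le hz.le
    have h5 := hL0 z hz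
    linarith
  have hmeasF : ∀ w : ℂ, Measurable (fun z : ℝ × ℝ => (f z : ℂ) * Pool.Agent.Run7.h500.RD.ker k c w z) := by
    intro w
    unfold Pool.Agent.Run7.h500.RD.ker
    have hf := h.cont.measurable
    fun_prop
  let F' : ℂ → ℝ × ℝ → ℂ := fun w z => (f z : ℂ) *
    (-((k : ℂ) * (w * (z.2 : ℂ) - (z.1 : ℂ) + c) ^ (k - 1) * (z.2 : ℂ)) /
      ((w * (z.2 : ℂ) - (z.1 : ℂ) + c) ^ k) ^ 2)
  have hmeasF' : Measurable (F' w0) := by
    have hf := h.cont.measurable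
    simp only [F']
    fun_prop
  have hupm : MeasurableSet up := measurableSet_lt measurable_const measurable_snd
  have key := hasDerivAt_integral_of_dominated_loc_of_deriv_le
    (μ := (volume : Measure (ℝ × ℝ)).restrict up)
    (F := fun w z => (f z : ℂ) * Pool.Agent.Run7.h500.RD.ker k c w z) (F' := F')
    (x₀ := w0) (s := Metric.ball w0 (w0.im / 2))
    (bound := fun z => (k * 2 ^ (k + 1) / w0.im) * ‖(f z : ℂ) * Pool.Agent.Run7.h500.RD.ker k c w0 z‖)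
    (Metric.ball_mem_nhds w0 (by positivity))
    (Eventually.of_forall (fun w => (hmeasF w).aestronglyMeasurable))
    hint hmeasF'.aestronglyMeasurable
    (by
      refine (ae_restrict_iff' hupm).2 (Eventually.of_forall (fun z hz w hw => ?_))
      have hz2 : 0 < z.2 := hz
      have hl := hLw z hz2 w hw
      have hp := hLp z hz2
      have h0 := hL0 z hz2
      set L := w * (z.2 : ℂ) - (z.1 : ℂ) + c with hL
      set L0 := w0 * (z.2 : ℂ) - (z.1 : ℂ) + c with hL0d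
      have hLpos : 0 < ‖L‖ := by linarith
      simp only [F', Pool.Agent.Run7.h500.RD.ker, ← hL, ← hL0d]
      rw [norm_mul, norm_mul, norm_div, norm_neg, norm_mul, norm_mul, norm_pow, norm_pow,
        norm_pow, norm_inv, norm_pow, Complex.norm_real, Complex.norm_real, Complex.norm_natCast,
        Real.norm_of_nonneg hz2.le, Real.norm_eq_abs]
      have e1 : (k : ℝ) * ‖L‖ ^ (k - 1) * z.2 / (‖L‖ ^ k) ^ 2 = k * z.2 / ‖L‖ ^ (k + 1) := by
        rw [div_eq_div_iff (by positivity) (by positivity)]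
        have : ‖L‖ ^ (k - 1) * ‖L‖ ^ (k + 1) = (‖L‖ ^ k) ^ 2 := by
          rw [← pow_add, ← pow_mul]; congr 1; omega
        calc (k : ℝ) * ‖L‖ ^ (k - 1) * z.2 * ‖L‖ ^ (k + 1)
            = k * z.2 * (‖L‖ ^ (k - 1) * ‖L‖ ^ (k + 1)) := by ring
          _ = k * z.2 * (‖L‖ ^ k) ^ 2 := by rw [this]
      rw [e1]
      have e2 : k * z.2 / ‖L‖ ^ (k + 1) ≤ (k * (‖L0‖ / w0.im)) / (‖L0‖ / 2) ^ (k + 1) := by
        apply div_le_div₀ (by positivity) _ (by positivity)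
        · exact pow_le_pow_left₀ (by positivity) hl _
        · apply mul_le_mul_of_nonneg_left _ (by positivity)
          rw [le_div_iff₀ hη]; linarith
      have e3 : (k * (‖L0‖ / w0.im)) / (‖L0‖ / 2) ^ (k + 1)
          = (k * 2 ^ (k + 1) / w0.im) * (‖L0‖ ^ k)⁻¹ := by
        rw [div_pow, pow_succ ‖L0‖ k]
        field_simp
      calc |f z| * (k * z.2 / ‖L‖ ^ (k + 1))
          ≤ |f z| * ((k * (‖L0‖ / w0.im)) / (‖L0‖ / 2) ^ (k + 1)) :=
            mul_le_mul_of_nonneg_left e2 (abs_nonneg _)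
        _ = |f z| * ((k * 2 ^ (k + 1) / w0.im) * (‖L0‖ ^ k)⁻¹) := by rw [e3]
        _ = k * 2 ^ (k + 1) / w0.im * (|f z| * (‖L0‖ ^ k)⁻¹) := by ring)
    (hint.norm.const_mul _)
    (by
      refine (ae_restrict_iff' hupm).2 (Eventually.of_forall (fun z hz w hw => ?_))
      have hz2 : 0 < z.2 := hz
      have hl := hLw z hz2 w hw
      have hp := hLp z hz2
      have hLne : w * (z.2 : ℂ) - (z.1 : ℂ) + c ≠ 0 := by
        intro h0
        rw [h0, norm_zero] at hl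
        linarith
      have hd1 : HasDerivAt (fun w : ℂ => w * (z.2 : ℂ) - (z.1 : ℂ) + c) (z.2 : ℂ) w := by
        have := (((hasDerivAt_id w).mul_const (z.2 : ℂ)).sub_const (z.1 : ℂ)).add_const c
        simpa using this
      have hd2 := hd1.pow k
      have hd3 := hd2.inv (pow_ne_zero k hLne)
      have hd4 := hd3.const_mul (f z : ℂ)
      exact hd4)
  exact key.2.differentiableAt.differentiableWithinAt

end Pool.Agent.Run7.h62.RD
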