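import Pool.Agent.Run7.h500.RD.Stm
set_option autoImplicit false
open MeasureTheory Filter Topology Set

namespace Pool.Agent.Run7.h62.RD
open Pool.Agent.Run7.h500.RD

theorem wpos (k : ℕ) (b : ℝ) (z : ℝ × ℝ) : (0:ℝ) < (1 + |z.1 - b * z.2|) ^ k := by
  positivity

theorem wnorm (f : ℝ × ℝ → ℝ) (k : ℕ) (b : ℝ) (z : ℝ × ℝ) :
    ‖f z / (1 + |z.1 - b * z.2|) ^ k‖ = |f z| / (1 + |z.1 - b * z.2|) ^ k := by
  rw [norm_div, Real.norm_eq_abs, Real.norm_of_nonneg (wpos k b z).le]

theorem t_LSC : S_LSC := by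
  intro f k hf M
  apply IsSeqClosed.isClosed
  intro a a0 ha hlim
  have hcont : ∀ b : ℝ, Continuous (fun z : ℝ × ℝ => f z / (1 + |z.1 - b * z.2|) ^ k) := by
    intro b
    exact hf.div (by fun_prop) (fun z => (wpos k b z).ne')
  have hN : ∀ b : ℝ, WI f k b →
      ∫⁻ z, ‖f z / (1 + |z.1 - b * z.2|) ^ k‖ₑ = ENNReal.ofReal (N f k b) := by
    intro b hb
    have := ofReal_integral_norm_eq_lintegral_enorm hb
    rw [← this]
    congr 1
    unfold N
    exact integral_congr_ae (Eventually.of_forall (fun z => wnorm f k b z))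
  have hN0 : ∀ b : ℝ, 0 ≤ N f k b := by
    intro b
    unfold N
    exact integral_nonneg (fun z => div_nonneg (abs_nonneg _) (wpos k b z).le)
  have hM : 0 ≤ M := (hN0 (a 0)).trans (ha 0).2
  have key : ∫⁻ z, ‖f z / (1 + |z.1 - a0 * z.2|) ^ k‖ₑ ≤ ENNReal.ofReal M := by
    calc ∫⁻ z, ‖f z / (1 + |z.1 - a0 * z.2|) ^ k‖ₑ
        = ∫⁻ z, liminf (fun n => ‖f z / (1 + |z.1 - a n * z.2|) ^ k‖ₑ) atTop := by
          apply lintegral_congr
          intro z
          symm
          apply Tendsto.liminf_eq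
          have h1 : Tendsto (fun n => f z / (1 + |z.1 - a n * z.2|) ^ k) atTop
              (𝓝 (f z / (1 + |z.1 - a0 * z.2|) ^ k)) := by
            refine Tendsto.div tendsto_const_nhds ?_ (wpos k a0 z).ne'
            refine Tendsto.pow ?_ k
            refine Tendsto.const_add 1 ?_
            refine Tendsto.abs ?_
            exact Tendsto.sub tendsto_const_nhds (hlim.mul_const _)
          exact (continuous_enorm.tendsto _).comp h1
      _ ≤ liminf (fun n => ∫⁻ z, ‖f z / (1 + |z.1 - a n * z.2|) ^ k‖ₑ) atTop :=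
          lintegral_liminf_le (fun n => (hcont (a n)).measurable.enorm)
      _ ≤ liminf (fun _ : ℕ => ENNReal.ofReal M) atTop := by
          refine liminf_le_liminf (Eventually.of_forall (fun n => ?_))
          rw [hN (a n) (ha n).1]
          exact ENNReal.ofReal_le_ofReal (ha n).2
      _ = ENNReal.ofReal M := liminf_const _
  have hW : WI f k a0 := ⟨(hcont a0).aestronglyMeasurable, lt_of_le_of_lt key ENNReal.ofReal_lt_top⟩
  refine ⟨hW, ?_⟩
  rw [hN a0 hW] at key
  exact (ENNReal.ofReal_le_ofReal_iff hM).1 key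

end Pool.Agent.Run7.h62.RD
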