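import Pool.Agent.Run7.h500.RD.Stm
set_option autoImplicit false
open MeasureTheory Filter Topology Set

namespace Pool.Agent.Run7.h62.RD
open Pool.Agent.Run7.h500.RD

/-- reflection in the x axis as a measurable equivalence -/
def refl2 : ℝ × ℝ ≃ᵐ ℝ × ℝ :=
  MeasurableEquiv.prodCongr (MeasurableEquiv.refl ℝ) (MeasurableEquiv.neg ℝ)

theorem refl2_apply (z : ℝ × ℝ) : refl2 z = (z.1, -z.2) := rfl

theorem refl2_mp : MeasurePreserving refl2 (volume : Measure (ℝ × ℝ)) volume :=
  (MeasurePreserving.id (volume : Measure ℝ)).prod (Measure.measurePreserving_neg volume)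

theorem WI_flip (f : ℝ × ℝ → ℝ) (k : ℕ) (a : ℝ) (h : WI f k a) :
    WI (Pool.Agent.Run7.h500.RD.flip f) k (-a) := by
  unfold WI at *
  have h2 := (refl2_mp.integrable_comp_emb refl2.measurableEmbedding).2 h
  refine h2.congr (Eventually.of_forall (fun z => ?_))
  simp only [Function.comp, refl2_apply, Pool.Agent.Run7.h500.RD.flip]
  congr 4
  ring

theorem N_flip (f : ℝ × ℝ → ℝ) (k : ℕ) (a : ℝ) :
    N (Pool.Agent.Run7.h500.RD.flip f) k (-a) = N f k a := by
  unfold N
  rw [← refl2_mp.integral_comp refl2.measurableEmbedding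
    (fun z : ℝ × ℝ => |f z| / (1 + |z.1 - a * z.2|) ^ k)]
  refine integral_congr_ae (Eventually.of_forall (fun z => ?_))
  simp only [refl2_apply, Pool.Agent.Run7.h500.RD.flip]
  congr 4
  ring

theorem t_VB : S_VB := by
  intro hVERT hLIM hFUB f m k C h c hc a hWI
  have hcont := h.cont
  have hflipc : Continuous (Pool.Agent.Run7.h500.RD.flip f) := by
    unfold Pool.Agent.Run7.h500.RD.flip
    exact hcont.comp (by fun_prop)
  have hW' := WI_flip f k a hWI
  have hpos : ∀ η : ℝ, 0 < η →
      V f k c ((a : ℂ) + η * Complex.I) = Vp f k c ((a : ℂ) + η * Complex.I) := by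
    intro η hη
    unfold V
    rw [if_pos]
    simpa using hη
  have hneg : ∀ η : ℝ, η < 0 →
      V f k c ((a : ℂ) + η * Complex.I) = - Vp (Pool.Agent.Run7.h500.RD.flip f) k c
        (((-a : ℝ) : ℂ) + ((-η : ℝ) : ℂ) * Complex.I) := by
    intro η hη
    unfold V
    rw [if_neg]
    · congr 2
      push_cast
      ring
    · simpa using hη.le
  constructor
  · intro η hη
    rcases lt_or_gt_of_ne hη with h0 | h0
    · rw [hneg η h0, norm_neg]
      have := (hVERT (Pool.Agent.Run7.h500.RD.flip f) k hflipc c hc (-a) (-η) hW'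
        (by linarith)).2
      rwa [N_flip] at this
    · rw [hpos η h0]
      exact (hVERT f k hcont c hc a η hWI h0.le).2
  · rw [← nhdsLT_sup_nhdsGT, tendsto_sup]
    constructor
    · have h1 := hLIM (Pool.Agent.Run7.h500.RD.flip f) k hflipc c hc (-a) hW'
      have h2 : Tendsto (fun η : ℝ => -η) (𝓝[<] 0) (𝓝[>] 0) := by
        simpa using tendsto_neg_nhdsLT (a := (0:ℝ))
      have h3 := (h1.comp h2).neg
      have h4 : - Vp (Pool.Agent.Run7.h500.RD.flip f) k c ((-a : ℝ) : ℂ) = Vp f k c (a : ℂ) := by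
        have := hFUB f k hcont h.zero c hc a hWI
        push_cast
        linear_combination -this
      rw [h4] at h3
      refine h3.congr' ?_
      filter_upwards [self_mem_nhdsWithin] with η hη
      rw [hneg η hη]
      rfl
    · refine (hLIM f k hcont c hc a hWI).congr' ?_
      filter_upwards [self_mem_nhdsWithin] with η hη
      rw [hpos η hη]

end Pool.Agent.Run7.h62.RD
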